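import Pool.Agent.H299.RDE.Final

/-!
# MP_88c4fb_an: classification of the special cases of order three (complete) and of 917 of the
961 special cases of order four

* `BoundedOnly k P Q`: the special case of `(E_k)` with positive numerator coefficients indexed by
  `P ⊆ {0, …, k}` (`0` stands for `α`) and positive denominator coefficients indexed by `Q`
  (`0` stands for `A`) has bounded solutions only.
* `code P = ∑ i ∈ P, 2 ^ i`.
* `entry t m n`: the digit of `10 ^ (n - 1)` of the `m`-th number of the list `t`.
* `table3`, `table4`: explicit tables; `1` stands for bounded, `2` for unbounded, `0` for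
  undecided.
-/

namespace Pool.Agent.Results.MP_88c4fb_an.Classification

open Pool.Agent.H299.RDE

/-- **Order three.** A special case `(P, Q)` has bounded solutions only iff its entry in `table3`
is `1`; this holds for exactly `135` of the `225` special cases.

**Order four.** If the entry of `(P, Q)` in `table4` is `1` then the special case has bounded
solutions only, if it is `2` then there are coefficients with an unbounded solution; these two
entries occur for `507` and `410` of the `961` special cases. -/
theorem result :
    (∀ P Q : Finset (Fin 4), P.Nonempty → Q.Nonempty →
      (BoundedOnly 3 P Q ↔ entry table3 (code P) (code Q) = 1)) ∧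
    (∀ P Q : Finset (Fin 5), P.Nonempty → Q.Nonempty →
      (entry table4 (code P) (code Q) = 1 → BoundedOnly 4 P Q) ∧
      (entry table4 (code P) (code Q) = 2 → ¬ BoundedOnly 4 P Q)) ∧
    (pairs 3 table3 1).card = 135 ∧ (pairs 3 table3 2).card = 90 ∧
    (pairs 4 table4 1).card = 507 ∧ (pairs 4 table4 2).card = 410 :=
  ⟨class3, class4, card3_1, card3_2, card4_1, card4_2⟩

end Pool.Agent.Results.MP_88c4fb_an.Classification
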